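import Pool.Agent.T2h67.SG.Bern
import Pool.Agent.W927.BM.Main
import Pool.Agent.W927.BM.Win

set_option autoImplicit false

/-!
# A problem with Baire measurable but no measurable solutions on the shift graph
-/

namespace Pool.Agent.T2h67.SG

open MeasureTheory Pool.Agent.W927.BM

section

variable {d : ℕ} (hd : 2 ≤ d)

/-- the point with coordinates `t`, `x` of the plane -/
def pl (t x : ℤ) : GD d :=
  t • u ((⟨0, by omega⟩ : Fin d), true) + x • u ((⟨1, by omega⟩ : Fin d), true)

theorem pl_zero : pl hd 0 0 = 0 := by simp [pl]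

theorem pl_add (s t x z : ℤ) : pl hd (s + t) (x + z) = pl hd s x + pl hd t z := by
  unfold pl
  rw [add_smul, add_smul]
  abel

theorem pl_one : pl hd 0 1 = u ((⟨1, by omega⟩ : Fin d), true) := by simp [pl]

theorem nm_smul (t : ℤ) (δ : Dir d) : nm (t • u δ) = t.natAbs := by
  unfold nm u
  rw [Finset.sum_eq_single δ.1]
  · rw [Pi.smul_apply, Pi.single_eq_same, smul_eq_mul, Int.natAbs_mul]
    rcases δ with ⟨i, b⟩
    cases b <;> simp [sg]
  · intro b _ hb
    rw [Pi.smul_apply, Pi.single_eq_of_ne hb]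
    simp
  · intro h
    exact absurd (Finset.mem_univ _) h

theorem nm_pl (t x : ℤ) : nm (pl hd t x) ≤ t.natAbs + x.natAbs := by
  refine (nm_add_le _ _).trans ?_
  rw [nm_smul, nm_smul]

theorem pl_eq_zero {t x : ℤ} (h : pl hd t x = 0) : t = 0 ∧ x = 0 := by
  have h0 := congrFun h ⟨0, by omega⟩
  have h1 := congrFun h ⟨1, by omega⟩
  simp [pl, u, sg] at h0 h1
  exact ⟨h0, h1⟩

/-- The rule for configurations on `ℤᵈ`. -/
def RR (w : GD d → Lab) : Prop := Rule (fun t x => w (pl hd t x)) 0 0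

theorem RR_loc (w w' : GD d → Lab) (h : ∀ g, nm g ≤ 4 → w g = w' g) (hw : RR hd w) : RR hd w' := by
  refine Rule_congr (t := 0) (x := 0) (t' := 0) (x' := 0) ?_ hw
  intro s y hs hy
  refine h _ ((nm_pl hd _ _).trans ?_)
  rw [abs_le] at hs hy
  omega

theorem baire_pos {M : ℕ} {κ : freePart d → Fin M} (hκ : Measurable κ)
    (hκ' : ∀ x (δ δ' : Dir d), κ (act (u δ) x) = κ (act (u δ') x) → δ = δ') :
    HasBaireSolution d (enc d M Lab 4 (RR hd)) := by
  obtain ⟨f, G₀, hf, hG, -, hGr, hGR⟩ := pos (freePart d) (fun t x => act (pl hd t x))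
    (fun y => by rw [pl_zero, act_zero])
    (fun s t x z y => by rw [pl_add, act_add])
    (fun t x => measurable_act _) (fun t x y h => pl_eq_zero hd (act_free h))
  obtain ⟨Y, hYG, hYm, hYi, hYr⟩ := exists_invariant hG hGr
  refine ⟨Y, hYm, hYi, hYr, ?_⟩
  refine baire_of_rule (RR_loc hd) (by norm_num) hκ hκ' hYm hYi hf ?_
  intro x hx
  exact hGR x (hYG hx) 0 0

theorem no_sol {M : ℕ} {V : Type} [MeasurableSpace V] {G : SimpleGraph V} {a : GD d → V → V}
    (hA : Act G a) {j : V → (GD d → Bool)} (hj : MeasurableEmbedding j)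
    (hcon : (bm d) (Set.range j)ᶜ = 0) (heq : ∀ g v, j (a g v) = shift g (j v))
    {f : V → ELab d M Lab} (hfB : BorelMap f) :
    ¬ (enc d M Lab 4 (RR hd)).IsSolution G f := by
  intro hf
  have : Nonempty Lab := ⟨chk false⟩
  obtain ⟨σ, -, hσ, l, hl, hR⟩ := rule_of_sol (RR_loc hd) (by norm_num) (by omega) hA hj hcon heq
    hfB hf
  have hR' : ∀ᵐ ω ∂(bm d), ∀ t x : ℤ,
      RR hd (fun g => l (shift (Lin σ g) (shift (Lin σ (pl hd t x)) ω))) := by
    rw [ae_all_iff]; intro t
    rw [ae_all_iff]; intro x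
    exact (mp_shift (Lin σ (pl hd t x))).quasiMeasurePreserving.ae hR
  refine neg (GD d → Bool) (bm d) (fun t x => shift (Lin σ (pl hd t x))) ?_ ?_ ?_ ?_ ⟨l, hl, ?_⟩
  · intro y
    change shift (Lin σ (pl hd 0 0)) y = y
    rw [pl_zero, Lin_zero, shift_zero]
  · intro s t x z y
    change shift (Lin σ (pl hd (s + t) (x + z))) y = _
    rw [pl_add, Lin_add, shift_add]
  · intro t x
    exact mp_shift _
  · change Ergodic (shift (Lin σ (pl hd 0 1))) (bm d)
    rw [pl_one, Lin_u σ hσ]
    exact erg_shift (u_ne_zero _)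
  · filter_upwards [hR'] with ω hω
    intro t x
    refine Rule_congr (t := 0) (x := 0) (t' := t) (x' := x) ?_ (hω t x)
    intro s y _ _
    change l (shift (Lin σ (pl hd (0 + s) (0 + y))) (shift (Lin σ (pl hd t x)) ω)) =
      l (shift (Lin σ (pl hd (t + s) (x + y))) ω)
    rw [zero_add, zero_add, ← shift_add, ← Lin_add, ← pl_add, add_comm s, add_comm y]

theorem not_measurable (M : ℕ) : ¬ HasMeasurableSolution d (enc d M Lab 4 (RR hd)) := by
  intro H
  have hFPm : MeasurableSet (freePart d) := isGδ_freePart.measurableSet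
  have hme : MeasurableEmbedding (Subtype.val : freePart d → (GD d → Bool)) :=
    MeasurableEmbedding.subtype_coe hFPm
  set μ : Measure (freePart d) := (bm d).comap Subtype.val with hμ
  have hap : ∀ s : Set (freePart d), μ s = bm d (Subtype.val '' s) := fun s => hme.comap_apply _ _
  have hpr : IsProbabilityMeasure μ := by
    refine ⟨?_⟩
    rw [hap, Set.image_univ, Subtype.range_coe]
    exact (prob_compl_eq_zero_iff hFPm).1 null_compl_freePart
  obtain ⟨Y, hYm, hYi, hY0, f, hfB, hf⟩ := H μ hpr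
  have hj : MeasurableEmbedding (fun y : Y => (y.1.1 : GD d → Bool)) :=
    hme.comp (MeasurableEmbedding.subtype_coe hYm)
  refine no_sol hd (actY_Act hYi) hj ?_ (fun g v => rfl) hfB hf
  rw [hap] at hY0
  have h1 : (Set.range fun y : Y => (y.1.1 : GD d → Bool))ᶜ ⊆
      (freePart d)ᶜ ∪ Subtype.val '' Yᶜ := by
    intro ω hω
    by_cases h : ω ∈ freePart d
    · right
      refine ⟨⟨ω, h⟩, fun hy => hω ⟨⟨⟨ω, h⟩, hy⟩, rfl⟩, rfl⟩
    · exact Or.inl h
  exact measure_mono_null h1 (measure_union_null null_compl_freePart hY0)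

theorem not_borel (M : ℕ) : ¬ HasBorelSolution d (enc d M Lab 4 (RR hd)) := by
  rintro ⟨f, hfB, hf⟩
  have hFPm : MeasurableSet (freePart d) := isGδ_freePart.measurableSet
  have hme : MeasurableEmbedding (Subtype.val : freePart d → (GD d → Bool)) :=
    MeasurableEmbedding.subtype_coe hFPm
  refine no_sol hd act_Act hme ?_ (fun g v => rfl) hfB hf
  rw [Subtype.range_coe]
  exact null_compl_freePart

end

end Pool.Agent.T2h67.SG
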