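import Pool.Agent.T2h67.SG.Shift
import Pool.Agent.Y560.BE.Erg

set_option autoImplicit false

/-!
# The Bernoulli shift of fair coins
-/

namespace Pool.Agent.T2h67.SG

open MeasureTheory Pool.Agent.Y560.BE

/-- fair coin -/
noncomputable def coin : Measure Bool := (PMF.uniformOfFintype Bool).toMeasure

instance : IsProbabilityMeasure coin := by unfold coin; infer_instance

theorem coin_singleton (b : Bool) : coin {b} = 1 / 2 := by
  unfold coin
  rw [PMF.toMeasure_apply_singleton _ _ (measurableSet_singleton b), PMF.uniformOfFintype_apply]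
  simp

/-- The product measure -/
noncomputable def bm (d : ℕ) : Measure (GD d → Bool) := Measure.infinitePi fun _ => coin

instance (d : ℕ) : IsProbabilityMeasure (bm d) := by unfold bm; infer_instance

variable {d : ℕ}

theorem mp_shift (g : GD d) : MeasurePreserving (shift g) (bm d) (bm d) :=
  mp_cm coin (Equiv.addRight g)

theorem meas_shift (g : GD d) : Measurable (shift g) := (mp_shift g).measurable

theorem erg_shift {g : GD d} (hg : g ≠ 0) : Ergodic (shift g) (bm d) := by
  classical
  refine erg_cm coin (Equiv.addRight g) (move_off _ fun i n h => ?_)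
  have h1 : ∀ m : ℕ, (Equiv.addRight g)^[m] i = i + m • g := by
    intro m
    induction m with
    | zero => simp
    | succ m ih =>
      rw [Function.iterate_succ_apply', ih]
      change i + m • g + g = _
      rw [add_assoc, succ_nsmul]
  rw [h1] at h
  have h2 : (n + 1) • g = 0 := by
    have : i + (n + 1) • g = i + 0 := by rw [h, add_zero]
    exact add_left_cancel this
  apply hg
  funext k
  have h3 := congrFun h2 k
  simp only [Pi.smul_apply, Pi.zero_apply, smul_eq_zero] at h3
  rcases h3 with h3 | h3
  · omega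
  · exact h3

theorem null_fixed {g : GD d} (hg : g ≠ 0) : (bm d) {ω | shift g ω = ω} = 0 := by
  have hm : MeasurableSet {ω : GD d → Bool | shift g ω = ω} :=
    measurableSet_eq_fun (meas_shift g) measurable_id
  have hinv : shift g ⁻¹' {ω | shift g ω = ω} = {ω | shift g ω = ω} := by
    ext ω
    constructor
    · intro h
      have h' : shift g (shift g ω) = shift g ω := h
      change shift g ω = ω
      have h0 : ∀ x : GD d → Bool, shift (-g) (shift g x) = x := fun x => by
        rw [← shift_add, neg_add_cancel, shift_zero]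
      have h1 : shift (-g) (shift g (shift g ω)) = shift (-g) (shift g ω) := by rw [h']
      rwa [h0, h0] at h1
    · intro h
      have h' : shift g ω = ω := h
      change shift g (shift g ω) = shift g ω
      exact congrArg (shift g) h'
  rcases (erg_shift hg).toPreErgodic.prob_eq_zero_or_one hm hinv with h | h
  · exact h
  · exfalso
    have hmap : Measurable fun ω : GD d → Bool => (ω g, ω 0) :=
      (measurable_pi_apply _).prodMk (measurable_pi_apply _)
    have h2 : (bm d) ((fun ω : GD d → Bool => (ω g, ω 0)) ⁻¹' ({true} ×ˢ {false})) = 1 / 4 := by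
      rw [← Measure.map_apply hmap
        ((measurableSet_singleton true).prod (measurableSet_singleton false))]
      unfold bm
      rw [Measure.infinitePi_map_eval_prod hg, Measure.prod_prod, coin_singleton, coin_singleton]
      rw [← ENNReal.toReal_eq_toReal_iff' (by finiteness) (by finiteness)]
      simp
      norm_num
    have h3 : (fun ω : GD d → Bool => (ω g, ω 0)) ⁻¹' ({true} ×ˢ {false}) ⊆
        {ω | shift g ω = ω}ᶜ := by
      intro ω hω hω'
      have h4 : shift g ω = ω := hω'
      have h5 : ω g = ω 0 := by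
        have := congrFun h4 0
        simpa [shift] using this
      obtain ⟨h6, h7⟩ := hω
      simp only [Set.mem_singleton_iff] at h6 h7
      rw [h6, h7] at h5
      exact absurd h5 (by decide)
    have h4 : (bm d) {ω | shift g ω = ω}ᶜ = 0 := (prob_compl_eq_zero_iff hm).2 h
    have h5 := measure_mono_null h3 h4
    rw [h2] at h5
    simp at h5

theorem null_compl_freePart : (bm d) (freePart d)ᶜ = 0 := by
  have : (freePart d)ᶜ ⊆ ⋃ g : {g : GD d // g ≠ 0}, {ω | shift g.1 ω = ω} := by
    intro ω hω
    simp only [freePart, Set.mem_compl_iff, Set.mem_ofPred_eq, not_forall, not_not] at hω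
    obtain ⟨g, hg, h⟩ := hω
    exact Set.mem_iUnion.2 ⟨⟨g, hg⟩, h⟩
  exact measure_mono_null this (measure_iUnion_null fun g => null_fixed g.2)

/-- Borel solutions of the encoded problem on a conull set give a measurable solution of the rule for
one twisted Bernoulli shift. -/
theorem rule_of_sol {K : ℕ} {L : Type} [Finite L] [Nonempty L] {r : ℕ} {R : (GD d → L) → Prop}
    (hloc : ∀ w w' : GD d → L, (∀ g, nm g ≤ r → w g = w' g) → R w → R w') (hr : 2 ≤ r) (hd : 0 < d)
    {V : Type} [MeasurableSpace V] {G : SimpleGraph V} {a : GD d → V → V} (hA : Act G a)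
    {j : V → (GD d → Bool)} (hj : MeasurableEmbedding j) (hcon : (bm d) (Set.range j)ᶜ = 0)
    (heq : ∀ g v, j (a g v) = shift g (j v))
    {f : V → ELab d K L} (hfB : BorelMap f) (hf : (enc d K L r R).IsSolution G f) :
    ∃ σ : Dir d → Dir d, Function.Injective σ ∧ (∀ δ, σ (ng δ) = ng (σ δ)) ∧
      ∃ l : (GD d → Bool) → L, (∀ b, MeasurableSet (l ⁻¹' {b})) ∧
        ∀ᵐ ω ∂(bm d), R (fun g => l (shift (Lin σ g) ω)) := by
  classical
  obtain ⟨s, hsinj, hsodd, hsinv, hsiff, hsR⟩ := enc_neg hA hloc hr f hf
  have ham : ∀ g, Measurable (a g) := by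
    intro g
    rw [← hj.measurable_comp_iff]
    have : j ∘ a g = shift g ∘ j := funext fun v => heq g v
    rw [this]
    exact (meas_shift g).comp hj.measurable
  let _ : MeasurableSpace L := ⊤
  have _ : DiscreteMeasurableSpace L := ⟨fun _ => trivial⟩
  let _ : MeasurableSpace (ELab d K L) := ⊤
  have _ : DiscreteMeasurableSpace (ELab d K L) := ⟨fun _ => trivial⟩
  have hfm : Measurable f := measurable_to_countable' hfB
  set F : (Dir d → Dir d) → Set (GD d → Bool) := fun σ => j '' {v | s v = σ} with hF
  have hFm : ∀ σ, MeasurableSet (F σ) := by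
    intro σ
    refine hj.measurableSet_image.2 ?_
    have h1 : {v | s v = σ} = ⋂ δ : Dir d, {v | (f (a (u (σ δ)) v)).1 = (f v).2.1 δ} := by
      ext v
      simp only [Set.mem_ofPred_eq, Set.mem_iInter, hsiff]
      constructor
      · rintro rfl δ; rfl
      · intro h
        exact funext fun δ => (h δ).symm
    rw [h1]
    refine MeasurableSet.iInter fun δ => ?_
    have h2 : Measurable fun v => (f (a (u (σ δ)) v), f v) := (hfm.comp (ham _)).prodMk hfm
    exact h2 (MeasurableSet.of_discrete (s := {p : ELab d K L × ELab d K L | p.1.1 = p.2.2.1 δ}))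
  have hFinv : ∀ σ g, shift g ⁻¹' F σ = F σ := by
    intro σ g
    ext ω
    constructor
    · rintro ⟨v, hv, hvω⟩
      refine ⟨a (-g) v, ?_, ?_⟩
      · change s (a (-g) v) = σ
        rw [hsinv]; exact hv
      · rw [heq, hvω, ← shift_add, neg_add_cancel, shift_zero]
    · rintro ⟨v, hv, rfl⟩
      refine ⟨a g v, ?_, heq g v⟩
      change s (a g v) = σ
      rw [hsinv]; exact hv
  have hun : (⋃ σ, F σ) = Set.range j := by
    ext ω
    simp only [Set.mem_iUnion, hF, Set.mem_image, Set.mem_ofPred_eq, Set.mem_range]
    constructor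
    · rintro ⟨_, v, _, rfl⟩
      exact ⟨v, rfl⟩
    · rintro ⟨v, rfl⟩
      exact ⟨s v, v, rfl, rfl⟩
  have hex : ∃ σ, (bm d) (F σ)ᶜ = 0 := by
    by_contra hcon'
    push Not at hcon'
    have h0 : ∀ σ, (bm d) (F σ) = 0 := by
      intro σ
      rcases (erg_shift (u_ne_zero (⟨⟨0, hd⟩, true⟩ : Dir d))).toPreErgodic.prob_eq_zero_or_one
        (hFm σ) (hFinv σ _) with h | h
      · exact h
      · exact absurd ((prob_compl_eq_zero_iff (hFm σ)).2 h) (hcon' σ)
    have h1 : (bm d) (Set.range j) = 0 := by
      rw [← hun]
      exact measure_iUnion_null h0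
    have h2 : (bm d) Set.univ = 0 := by
      rw [← Set.union_compl_self (Set.range j)]
      exact measure_union_null h1 hcon
    rw [measure_univ] at h2
    exact one_ne_zero h2
  obtain ⟨σ, hσ⟩ := hex
  have hne : (F σ).Nonempty := by
    rw [Set.nonempty_iff_ne_empty]
    intro h
    rw [h, Set.compl_empty, measure_univ] at hσ
    exact one_ne_zero hσ
  obtain ⟨_, v₀, hv₀, _⟩ := hne
  refine ⟨σ, ?_, ?_, ?_⟩
  · rw [← show s v₀ = σ from hv₀]; exact hsinj v₀
  · rw [← show s v₀ = σ from hv₀]; exact hsodd v₀
  set l : (GD d → Bool) → L := fun ω =>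
    if h : ω ∈ Set.range j then (f h.choose).2.2 else Classical.arbitrary L with hl
  have hlj : ∀ v, l (j v) = (f v).2.2 := by
    intro v
    have h : j v ∈ Set.range j := ⟨v, rfl⟩
    simp only [hl, dif_pos h]
    rw [hj.injective h.choose_spec]
  refine ⟨l, ?_, ?_⟩
  · intro b
    have h1 : l ⁻¹' {b} = j '' {v | (f v).2.2 = b} ∪ ((Set.range j)ᶜ ∩ {_ω | Classical.arbitrary L = b}) := by
      ext ω
      by_cases h : ω ∈ Set.range j
      · obtain ⟨v, rfl⟩ := h
        simp only [Set.mem_preimage, hlj, Set.mem_singleton_iff, Set.mem_union, Set.mem_image,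
          Set.mem_ofPred_eq, Set.mem_inter_iff, Set.mem_compl_iff, Set.mem_range_self,
          not_true_eq_false, false_and, or_false]
        constructor
        · intro h
          exact ⟨v, h, rfl⟩
        · rintro ⟨w, hw, hwv⟩
          rw [← hj.injective hwv]; exact hw
      · have h0 : l ω = Classical.arbitrary L := dif_neg h
        constructor
        · intro h'
          have h'' : l ω = b := h'
          exact Or.inr ⟨h, by rw [← h'', h0]; rfl⟩
        · rintro (⟨v, _, rfl⟩ | ⟨_, h'⟩)
          · exact absurd ⟨v, rfl⟩ h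
          · exact h0.trans h'
    rw [h1]
    refine (hj.measurableSet_image.2 ?_).union (hj.measurableSet_range.compl.inter ?_)
    · exact hfm (MeasurableSet.of_discrete (s := {p : ELab d K L | p.2.2 = b}))
    · exact MeasurableSet.const _
  · filter_upwards [compl_mem_ae_iff.2 hσ] with ω hω
    obtain ⟨v, hv, rfl⟩ : ω ∈ F σ := by simpa using hω
    have h1 := hsR v
    rw [show s v = σ from hv] at h1
    have h2 : (fun g => l (shift (Lin σ g) (j v))) = fun g => (f (a (Lin σ g) v)).2.2 := by
      funext g
      rw [← heq, hlj]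
    rw [h2]
    exact h1

end Pool.Agent.T2h67.SG
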