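import Mathlib

set_option autoImplicit false

/-!
# Locally checkable labelling problems on the shift graph of `ℤᵈ`

Definitions for problem MP_eb515b_lc.
-/

namespace Pool.Agent.T2h67.SG

open MeasureTheory

/-- the group `ℤᵈ` -/
abbrev GD (d : ℕ) : Type := Fin d → ℤ

/-- the shift action of `ℤᵈ` on `2^(ℤᵈ)`: `(g · x)(h) = x (h + g)` -/
def shift {d : ℕ} (g : GD d) (x : GD d → Bool) : GD d → Bool := fun h => x (h + g)

/-- the free part of the shift: the points `x` with `g · x ≠ x` for all `g ≠ 0` -/
def freePart (d : ℕ) : Set (GD d → Bool) := {x | ∀ g : GD d, g ≠ 0 → shift g x ≠ x}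

theorem shift_zero {d : ℕ} (x : GD d → Bool) : shift 0 x = x := by
  funext h
  simp [shift]

theorem shift_add {d : ℕ} (g h : GD d) (x : GD d → Bool) :
    shift (g + h) x = shift g (shift h x) := by
  funext k
  simp [shift, add_assoc]

/-- The shift graph: two points `x`, `y` of the free part are adjacent if and only if
`y = e · x` or `y = (- e) · x` for some standard basis vector `e`. -/
def shiftGraph (d : ℕ) : SimpleGraph (freePart d) where
  Adj x y := ∃ i : Fin d, y.1 = shift (Pi.single i 1) x.1 ∨ y.1 = shift (-Pi.single i 1) x.1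
  symm := ⟨by
    rintro x y ⟨i, h | h⟩
    · exact ⟨i, Or.inr (by rw [h, ← shift_add, neg_add_cancel, shift_zero])⟩
    · exact ⟨i, Or.inl (by rw [h, ← shift_add, add_neg_cancel, shift_zero])⟩⟩
  loopless := ⟨by
    rintro x ⟨i, h | h⟩
    · refine x.2 (Pi.single i 1) ?_ h.symm
      intro h0
      have := congrFun h0 i
      simp at this
    · refine x.2 (-Pi.single i 1) ?_ h.symm
      intro h0
      have := congrFun h0 i
      simp at this⟩

/-- A rooted graph with vertices labelled by elements of `Λ`. -/
structure RLG (Λ : Type) where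
  /-- the vertices -/
  V : Type
  /-- the graph -/
  G : SimpleGraph V
  /-- the root -/
  root : V
  /-- the labels -/
  lab : V → Λ

/-- `A` and `B` are isomorphic as rooted labelled graphs. -/
def RLG.Iso {Λ : Type} (A B : RLG Λ) : Prop :=
  ∃ e : A.G ≃g B.G, e A.root = B.root ∧ ∀ v, B.lab (e v) = A.lab v

/-- The ball of radius `r` around the vertex `v` of `G` (the induced subgraph on the vertices at
distance at most `r` from `v`), rooted at `v` and labelled by `f`. -/
noncomputable def ball {V Λ : Type} (G : SimpleGraph V) (r : ℕ) (f : V → Λ) (v : V) : RLG Λ where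
  V := {w : V // G.edist v w ≤ r}
  G := G.induce {w : V | G.edist v w ≤ r}
  root := ⟨v, by simp⟩
  lab w := f w.1

/-- A locally checkable labelling problem: a finite set `Λ` of labels, a radius `r`, and a set `P`
of isomorphism types of finite rooted `Λ`-labelled graphs of radius at most `r` (given as an
isomorphism invariant set of such graphs). -/
structure LCL where
  /-- the labels -/
  Λ : Type
  /-- there are finitely many labels -/
  fin : Finite Λ
  /-- the radius -/
  r : ℕ
  /-- the allowed rooted labelled graphs -/
  P : Set (RLG Λ)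
  /-- they are finite -/
  finite : ∀ A ∈ P, Finite A.V
  /-- all their vertices have distance at most `r` from the root -/
  radius : ∀ A ∈ P, ∀ v, A.G.edist A.root v ≤ r
  /-- `P` is invariant under isomorphisms -/
  iso : ∀ A B : RLG Λ, A.Iso B → A ∈ P → B ∈ P

/-- `f` is a solution of the problem `Q` on the graph `G`. -/
def LCL.IsSolution (Q : LCL) {V : Type} (G : SimpleGraph V) (f : V → Q.Λ) : Prop :=
  ∀ v, ball G Q.r f v ∈ Q.P

/-- a Borel map to a finite set of labels -/
def BorelMap {V Λ : Type} [MeasurableSpace V] (f : V → Λ) : Prop :=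
  ∀ l, MeasurableSet (f ⁻¹' {l})

/-- The set `Y` of points of the free part is invariant under the shift action. -/
def Invariant {d : ℕ} (Y : Set (freePart d)) : Prop :=
  ∀ (g : GD d) (x y : freePart d), y.1 = shift g x.1 → x ∈ Y → y ∈ Y

/-- The shift graph has a Borel solution. -/
def HasBorelSolution (d : ℕ) (Q : LCL) : Prop :=
  ∃ f : freePart d → Q.Λ, BorelMap f ∧ Q.IsSolution (shiftGraph d) f

/-- The shift graph has a Baire measurable solution: a Borel solution on some invariant comeagre
Borel set. -/
def HasBaireSolution (d : ℕ) (Q : LCL) : Prop :=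
  ∃ Y : Set (freePart d), MeasurableSet Y ∧ Invariant Y ∧ Y ∈ residual (freePart d) ∧
    ∃ f : Y → Q.Λ, BorelMap f ∧ Q.IsSolution ((shiftGraph d).induce Y) f

/-- The shift graph has a measurable solution: for every Borel probability measure there is a Borel
solution on some invariant conull Borel set. -/
def HasMeasurableSolution (d : ℕ) (Q : LCL) : Prop :=
  ∀ μ : Measure (freePart d), IsProbabilityMeasure μ →
    ∃ Y : Set (freePart d), MeasurableSet Y ∧ Invariant Y ∧ μ Yᶜ = 0 ∧
      ∃ f : Y → Q.Λ, BorelMap f ∧ Q.IsSolution ((shiftGraph d).induce Y) f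

end Pool.Agent.T2h67.SG
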