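import Pool.Agent.T2h67.SG.Defs

set_option autoImplicit false

/-!
# Directions in `ℤᵈ`
-/

namespace Pool.Agent.T2h67.SG

/-- directions: coordinate and sign -/
abbrev Dir (d : ℕ) : Type := Fin d × Bool

/-- sign -/
def sg : Bool → ℤ
  | true => 1
  | false => -1

theorem sg_not (b : Bool) : sg (!b) = -sg b := by cases b <;> rfl

theorem sg_mul_self (b : Bool) : sg b * sg b = 1 := by cases b <;> rfl

theorem sg_ne_zero (b : Bool) : sg b ≠ 0 := by cases b <;> decide

/-- the unit vector of a direction -/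
def u {d : ℕ} (δ : Dir d) : GD d := Pi.single δ.1 (sg δ.2)

/-- opposite direction -/
def ng {d : ℕ} (δ : Dir d) : Dir d := (δ.1, !δ.2)

theorem ng_ng {d : ℕ} (δ : Dir d) : ng (ng δ) = δ := by
  simp [ng]

theorem ng_ne {d : ℕ} (δ : Dir d) : ng δ ≠ δ := by
  intro h
  have := congrArg Prod.snd h
  simp [ng] at this

theorem u_ng {d : ℕ} (δ : Dir d) : u (ng δ) = -u δ := by
  simp only [u, ng, sg_not, Pi.single_neg]

theorem u_ne_zero {d : ℕ} (δ : Dir d) : u δ ≠ 0 := by
  intro h
  have := congrFun h δ.1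
  simp [u, sg_ne_zero] at this

/-- inner product of two unit vectors -/
def ip {d : ℕ} (g h : GD d) : ℤ := ∑ i, g i * h i

theorem ip_add {d : ℕ} (g g' h : GD d) : ip (g + g') h = ip g h + ip g' h := by
  simp [ip, add_mul, Finset.sum_add_distrib]

theorem ip_u {d : ℕ} (δ ε : Dir d) :
    ip (u δ) (u ε) = if δ.1 = ε.1 then sg δ.2 * sg ε.2 else 0 := by
  classical
  unfold ip u
  rw [Finset.sum_eq_single δ.1]
  · by_cases h : δ.1 = ε.1
    · rw [if_pos h, Pi.single_eq_same, h, Pi.single_eq_same]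
    · rw [if_neg h, Pi.single_eq_same, Pi.single_eq_of_ne h, mul_zero]
  · intro b _ hb
    rw [Pi.single_eq_of_ne hb, zero_mul]
  · intro h
    exact absurd (Finset.mem_univ _) h

theorem ip_self {d : ℕ} (δ : Dir d) : ip (u δ) (u δ) = 1 := by
  rw [ip_u, if_pos rfl, sg_mul_self]

theorem ip_cases {d : ℕ} (δ ε : Dir d) :
    (δ = ε ∧ ip (u δ) (u ε) = 1) ∨ (δ = ng ε ∧ ip (u δ) (u ε) = -1) ∨
      (δ ≠ ε ∧ ip (u δ) (u ε) = 0) := by
  rw [ip_u]
  rcases δ with ⟨i, a⟩
  rcases ε with ⟨j, b⟩
  by_cases h : i = j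
  · subst h
    cases a <;> cases b <;> simp [sg, ng]
  · right; right
    refine ⟨fun h' => h (congrArg Prod.fst h'), if_neg h⟩

theorem u_injective {d : ℕ} : Function.Injective (u (d := d)) := by
  intro δ ε h
  rcases ip_cases δ ε with ⟨h1, _⟩ | ⟨h1, h2⟩ | ⟨h1, h2⟩
  · exact h1
  · rw [h, ip_self] at h2; omega
  · rw [h, ip_self] at h2; omega

/-- The two ways in which two sums of two unit vectors agree. -/
theorem sum_eq {d : ℕ} {a b c e : Dir d} (h : u a + u b = u c + u e) (hbe : b ≠ e) :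
    (a = e ∧ c = b) ∨ (a = ng b ∧ c = ng e) := by
  have h1 : ip (u a + u b) (u b) = ip (u c + u e) (u b) := by rw [h]
  rw [ip_add, ip_add, ip_self] at h1
  by_cases hab : a = ng b
  · right
    refine ⟨hab, ?_⟩
    rw [hab, u_ng, neg_add_cancel] at h
    have h2 : u c = u (ng e) := by
      rw [u_ng]
      exact eq_neg_of_add_eq_zero_left h.symm
    exact u_injective h2
  · left
    have h2 : 0 ≤ ip (u a) (u b) := by
      rcases ip_cases a b with ⟨_, h2⟩ | ⟨h2, _⟩ | ⟨_, h2⟩
      · omega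
      · exact absurd h2 hab
      · omega
    have h3 : ip (u e) (u b) ≤ 0 := by
      rcases ip_cases e b with ⟨h3, _⟩ | ⟨_, h3⟩ | ⟨_, h3⟩
      · exact absurd h3.symm hbe
      · omega
      · omega
    have h4 : c = b := by
      rcases ip_cases c b with ⟨h4, _⟩ | ⟨_, h4⟩ | ⟨_, h4⟩
      · exact h4
      · omega
      · omega
    refine ⟨?_, h4⟩
    rw [h4, add_comm (u b)] at h
    exact u_injective (add_right_cancel h)

/-- norm -/
def nm {d : ℕ} (g : GD d) : ℕ := ∑ i, (g i).natAbs

theorem nm_zero {d : ℕ} : nm (0 : GD d) = 0 := by simp [nm]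

theorem nm_u {d : ℕ} (δ : Dir d) : nm (u δ) = 1 := by
  unfold nm u
  rw [Finset.sum_eq_single δ.1]
  · rw [Pi.single_eq_same]
    rcases δ with ⟨i, b⟩
    cases b <;> rfl
  · intro b _ hb
    rw [Pi.single_eq_of_ne hb]
    rfl
  · intro h
    exact absurd (Finset.mem_univ _) h

theorem nm_add_le {d : ℕ} (g h : GD d) : nm (g + h) ≤ nm g + nm h := by
  unfold nm
  rw [← Finset.sum_add_distrib]
  exact Finset.sum_le_sum fun i _ => Int.natAbs_add_le _ _

theorem nm_step {d : ℕ} (g : GD d) (δ : Dir d) : nm (g + u δ) ≤ nm g + 1 := by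
  have := nm_add_le g (u δ)
  rwa [nm_u] at this

theorem nm_exists {d : ℕ} {g : GD d} (hg : g ≠ 0) :
    ∃ (g' : GD d) (δ : Dir d), g = g' + u δ ∧ nm g = nm g' + 1 := by
  classical
  obtain ⟨i, hi⟩ : ∃ i, g i ≠ 0 := by
    by_contra h
    push Not at h
    exact hg (funext h)
  set b : Bool := decide (0 < g i) with hb
  refine ⟨g - u (i, b), (i, b), by abel, ?_⟩
  have h1 : ∀ j, j ≠ i → (g - u (i, b)) j = g j := by
    intro j hj
    simp [u, Pi.single_eq_of_ne hj]
  have h2 : (g i).natAbs = ((g - u (i, b)) i).natAbs + 1 := by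
    have : (g - u (i, b)) i = g i - sg b := by simp [u]
    rw [this]
    by_cases h3 : 0 < g i
    · have : b = true := by simp [hb, h3]
      rw [this]
      simp only [sg]
      omega
    · have : b = false := by simp [hb, h3]
      rw [this]
      simp only [sg]
      omega
  have h3 : ∑ j ∈ Finset.univ.erase i, (g j).natAbs =
      ∑ j ∈ Finset.univ.erase i, ((g - u (i, b)) j).natAbs :=
    Finset.sum_congr rfl (fun j hj => by rw [h1 j (Finset.ne_of_mem_erase hj)])
  unfold nm
  rw [← Finset.add_sum_erase Finset.univ (fun j => (g j).natAbs) (Finset.mem_univ i),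
    ← Finset.add_sum_erase Finset.univ (fun j => ((g - u (i, b)) j).natAbs) (Finset.mem_univ i), h2,
    h3]
  ring

theorem nm_finite {d : ℕ} (r : ℕ) : {g : GD d | nm g ≤ r}.Finite := by
  refine (Set.finite_Icc (fun _ => -(r : ℤ) : GD d) (fun _ => (r : ℤ))).subset ?_
  intro g hg
  have h : ∀ i, (g i).natAbs ≤ r := fun i =>
    (Finset.single_le_sum (f := fun i => (g i).natAbs) (fun _ _ => Nat.zero_le _)
      (Finset.mem_univ i)).trans hg
  constructor
  · intro i
    have := h i
    simp only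
    omega
  · intro i
    have := h i
    simp only
    omega

/-- The linear map of a signed permutation. -/
def Lin {d : ℕ} (s : Dir d → Dir d) (g : GD d) : GD d := ∑ i, g i • u (s (i, true))

theorem Lin_zero {d : ℕ} (s : Dir d → Dir d) : Lin s 0 = 0 := by simp [Lin]

theorem Lin_add {d : ℕ} (s : Dir d → Dir d) (g h : GD d) : Lin s (g + h) = Lin s g + Lin s h := by
  simp [Lin, add_smul, Finset.sum_add_distrib]

theorem Lin_u {d : ℕ} (s : Dir d → Dir d) (hs : ∀ δ, s (ng δ) = ng (s δ)) (δ : Dir d) :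
    Lin s (u δ) = u (s δ) := by
  classical
  unfold Lin
  rw [Finset.sum_eq_single δ.1]
  · rcases δ with ⟨i, b⟩
    cases b
    · have : s (i, false) = ng (s (i, true)) := hs (i, true)
      rw [this, u_ng]
      simp [u, sg]
    · simp [u, sg]
  · intro b _ hb
    simp [u, Pi.single_eq_of_ne hb]
  · intro h
    exact absurd (Finset.mem_univ _) h

theorem Lin_id {d : ℕ} (g : GD d) : Lin id g = g := by
  classical
  funext j
  simp [Lin, u, sg, Finset.sum_apply, Pi.single_apply]

end Pool.Agent.T2h67.SG
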