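import Pool.Agent.T2h67.SG.Dir

set_option autoImplicit false

/-!
# Encoding of directions by labels of vertices
-/

namespace Pool.Agent.T2h67.SG

/-- a free action of `ℤᵈ` whose Schreier graph is `G` -/
structure Act {d : ℕ} {V : Type} (G : SimpleGraph V) (a : GD d → V → V) : Prop where
  zero : ∀ v, a 0 v = v
  add : ∀ g h v, a (g + h) v = a g (a h v)
  free : ∀ g v, a g v = v → g = 0
  adj : ∀ v w, G.Adj v w ↔ ∃ δ : Dir d, w = a (u δ) v

/-- Labels: a colour, the colours of the neighbours in all directions, a label of the given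
problem. -/
abbrev ELab (d K : ℕ) (L : Type) : Type := Fin K × (Dir d → Fin K) × L

/-- `φ` is a chart of the ball `A` which is compatible with the colours, and in this chart the rule
`R` holds. -/
structure Chart {d K : ℕ} {L : Type} (r : ℕ) (R : (GD d → L) → Prop) (A : RLG (ELab d K L))
    (φ : GD d → A.V) : Prop where
  root : φ 0 = A.root
  adj : ∀ g δ, nm g < r → A.G.Adj (φ g) (φ (g + u δ))
  col : ∀ g δ, nm g < r → (A.lab (φ (g + u δ))).1 = (A.lab (φ g)).2.1 δ
  all : ∀ w, A.G.Adj A.root w → ∃ δ, w = φ (u δ)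
  inj : Function.Injective (A.lab A.root).2.1
  rule : R (fun g => (A.lab (φ g)).2.2)

theorem edist_map_le {V W : Type} {G : SimpleGraph V} {H : SimpleGraph W} (f : G →g H) (v w : V) :
    H.edist (f v) (f w) ≤ G.edist v w := by
  by_cases h : G.edist v w = ⊤
  · rw [h]; exact le_top
  · obtain ⟨p, hp⟩ := G.exists_walk_of_edist_ne_top h
    rw [← hp]
    have := SimpleGraph.edist_le (p.map f)
    rwa [SimpleGraph.Walk.length_map] at this

/-- The problem with labels `ELab d K L` which encodes the rule `R`. -/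
def enc (d K : ℕ) (L : Type) [Finite L] (r : ℕ) (R : (GD d → L) → Prop) : LCL where
  Λ := ELab d K L
  fin := inferInstance
  r := r
  P := {A | Finite A.V ∧ (∀ v, A.G.edist A.root v ≤ r) ∧ ∃ φ, Chart r R A φ}
  finite := fun A h => h.1
  radius := fun A h => h.2.1
  iso := by
    rintro A B ⟨e, he, hl⟩ ⟨h1, h2, φ, hφ⟩
    refine ⟨Finite.of_equiv A.V e.toEquiv, ?_, fun g => e (φ g), ?_⟩
    · intro v
      obtain ⟨w, rfl⟩ := e.surjective v
      rw [← he]
      exact (edist_map_le e.toHom A.root w).trans (h2 w)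
    · refine ⟨?_, ?_, ?_, ?_, ?_, ?_⟩
      · rw [← he, hφ.root]
      · intro g δ hg
        exact e.map_adj_iff.2 (hφ.adj g δ hg)
      · intro g δ hg
        rw [hl, hl]
        exact hφ.col g δ hg
      · intro w hw
        obtain ⟨w, rfl⟩ := e.surjective w
        rw [← he] at hw
        obtain ⟨δ, hδ⟩ := hφ.all w (e.map_adj_iff.1 hw)
        exact ⟨δ, by rw [hδ]⟩
      · rw [← he, hl]
        exact hφ.inj
      · simp only [hl]
        exact hφ.rule

section

variable {d K : ℕ} {L : Type} [Finite L] {r : ℕ} {R : (GD d → L) → Prop} {V : Type}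
  {G : SimpleGraph V} {a : GD d → V → V}

theorem Act.inj (hA : Act G a) {g h : GD d} {v : V} (e : a g v = a h v) : g = h := by
  have h1 : a (-h + g) v = v := by
    rw [hA.add, e, ← hA.add, neg_add_cancel, hA.zero]
  have h2 := hA.free _ _ h1
  rw [neg_add_eq_zero] at h2
  exact h2.symm

theorem Act.step (hA : Act G a) (g : GD d) (δ : Dir d) (v : V) :
    G.Adj (a g v) (a (g + u δ) v) := by
  rw [hA.adj]
  exact ⟨δ, by rw [add_comm, hA.add]⟩

theorem Act.edist_le (hA : Act G a) (v : V) : ∀ (n : ℕ) (g : GD d), nm g = n →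
    G.edist v (a g v) ≤ n := by
  intro n
  induction n with
  | zero =>
    intro g hg
    by_cases h : g = 0
    · subst h
      rw [hA.zero]; simp
    · obtain ⟨g', δ, _, h2⟩ := nm_exists h
      omega
  | succ n ih =>
    intro g hg
    have hg0 : g ≠ 0 := by
      rintro rfl
      rw [nm_zero] at hg
      omega
    obtain ⟨g', δ, h1, h2⟩ := nm_exists hg0
    have h3 := ih g' (by omega)
    have h4 : G.edist (a g' v) (a g v) = 1 := by
      rw [SimpleGraph.edist_eq_one_iff_adj, h1]
      exact hA.step g' δ v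
    calc G.edist v (a g v) ≤ G.edist v (a g' v) + G.edist (a g' v) (a g v) :=
          SimpleGraph.edist_triangle
      _ ≤ (n : ℕ∞) + 1 := by rw [h4]; gcongr
      _ = ((n + 1 : ℕ) : ℕ∞) := by push_cast; rfl

theorem Act.exists_of_walk (hA : Act G a) {v w : V} (p : G.Walk v w) :
    ∃ g : GD d, nm g ≤ p.length ∧ w = a g v := by
  induction p with
  | nil => exact ⟨0, by simp [nm_zero], (hA.zero _).symm⟩
  | cons h p ih =>
    obtain ⟨g, hg, hw⟩ := ih
    obtain ⟨δ, hδ⟩ := (hA.adj _ _).1 h
    refine ⟨g + u δ, ?_, ?_⟩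
    · rw [SimpleGraph.Walk.length_cons]
      exact (nm_step g δ).trans (by omega)
    · rw [hA.add, ← hδ, hw]

theorem Act.exists_of_edist (hA : Act G a) {v w : V} {n : ℕ} (h : G.edist v w ≤ n) :
    ∃ g : GD d, nm g ≤ n ∧ w = a g v := by
  have hne : G.edist v w ≠ ⊤ := ne_top_of_le_ne_top (ENat.natCast_ne_top n) h
  obtain ⟨p, hp⟩ := G.exists_walk_of_edist_ne_top hne
  obtain ⟨g, hg, hw⟩ := hA.exists_of_walk p
  refine ⟨g, hg.trans ?_, hw⟩
  rw [← hp] at h
  exact_mod_cast h

/-- From a labelling for the rule and a colouring we get a solution of the encoded problem. -/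
theorem enc_pos (hA : Act G a)
    (hloc : ∀ w w' : GD d → L, (∀ g, nm g ≤ r → w g = w' g) → R w → R w') (hr : 1 ≤ r)
    (c : V → Fin K) (hc : ∀ v δ δ', c (a (u δ) v) = c (a (u δ') v) → δ = δ') (l : V → L)
    (hR : ∀ v, R (fun g => l (a g v))) :
    (enc d K L r R).IsSolution G (fun v => (c v, fun δ => c (a (u δ) v), l v)) := by
  classical
  intro v
  set f : V → ELab d K L := fun v => (c v, fun δ => c (a (u δ) v), l v) with hf
  have hmem : ∀ g : GD d, nm g ≤ r → G.edist v (a g v) ≤ r := fun g hg =>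
    (hA.edist_le v (nm g) g rfl).trans (by exact_mod_cast hg)
  set B : RLG (ELab d K L) := ball G r f v with hB
  let φ : GD d → {w : V // G.edist v w ≤ r} := fun g =>
    if h : nm g ≤ r then ⟨a g v, hmem g h⟩ else ⟨v, by simp⟩
  have hφ : ∀ g, nm g ≤ r → (φ g).1 = a g v := by
    intro g hg
    simp only [φ, dif_pos hg]
  have hadj : ∀ g δ, nm g < r → B.G.Adj (φ g) (φ (g + u δ)) := by
    intro g δ hg
    change G.Adj (φ g).1 (φ (g + u δ)).1
    rw [hφ g hg.le, hφ _ ((nm_step g δ).trans hg)]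
    exact hA.step g δ v
  have hroot : φ 0 = B.root := by
    apply Subtype.ext
    rw [hφ 0 (by rw [nm_zero]; omega), hA.zero]
    rfl
  refine ⟨?_, ?_, φ, ?_⟩
  · have h1 : {w : V | G.edist v w ≤ r}.Finite := by
      refine ((nm_finite (d := d) r).image (fun g => a g v)).subset ?_
      intro w hw
      obtain ⟨g, hg, hw'⟩ := hA.exists_of_edist hw
      exact ⟨g, hg, hw'.symm⟩
    exact h1.to_subtype
  · have key : ∀ (n : ℕ) (g : GD d), nm g = n → nm g ≤ r → B.G.edist B.root (φ g) ≤ n := by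
      intro n
      induction n with
      | zero =>
        intro g hg _
        by_cases h : g = 0
        · subst h
          rw [hroot]; simp
        · obtain ⟨g', δ, _, h2⟩ := nm_exists h
          omega
      | succ n ih =>
        intro g hg hgr
        have hg0 : g ≠ 0 := by
          rintro rfl
          rw [nm_zero] at hg
          omega
        obtain ⟨g', δ, h1, h2⟩ := nm_exists hg0
        have h3 := ih g' (by omega) (by omega)
        have h5 := hadj g' δ (by omega)
        rw [← h1] at h5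
        have h4 : B.G.edist (φ g') (φ g) = 1 := SimpleGraph.edist_eq_one_iff_adj.2 h5
        calc B.G.edist B.root (φ g) ≤ B.G.edist B.root (φ g') + B.G.edist (φ g') (φ g) :=
              SimpleGraph.edist_triangle
          _ ≤ (n : ℕ∞) + 1 := by rw [h4]; gcongr
          _ = ((n + 1 : ℕ) : ℕ∞) := by push_cast; rfl
    intro w
    obtain ⟨g, hg, hw⟩ := hA.exists_of_edist (v := v) (w := w.1) w.2
    have h1 : w = φ g := Subtype.ext (by rw [hφ g hg, hw])
    rw [h1]
    exact (key (nm g) g rfl hg).trans (by exact_mod_cast hg)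
  · refine ⟨hroot, hadj, ?_, ?_, ?_, ?_⟩
    · intro g δ hg
      change (f (φ (g + u δ)).1).1 = (f (φ g).1).2.1 δ
      rw [hφ g hg.le, hφ _ ((nm_step g δ).trans hg)]
      simp only [hf]
      rw [add_comm, hA.add]
    · intro w hw
      have hw' : G.Adj v w.1 := hw
      obtain ⟨δ, hδ⟩ := (hA.adj _ _).1 hw'
      refine ⟨δ, Subtype.ext ?_⟩
      rw [hφ _ (by rw [nm_u]; exact hr), hδ]
    · intro δ δ' h
      exact hc v δ δ' h
    · refine hloc (fun g => l (a g v)) _ ?_ (hR v)
      intro g hg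
      change l (a g v) = (f (φ g).1).2.2
      rw [hφ g hg]

/-- A solution of the encoded problem gives a labelling for the action twisted by a signed
permutation of the coordinates which is constant on orbits. -/
theorem enc_neg (hA : Act G a)
    (hloc : ∀ w w' : GD d → L, (∀ g, nm g ≤ r → w g = w' g) → R w → R w') (hr : 2 ≤ r)
    (f : V → ELab d K L) (hf : (enc d K L r R).IsSolution G f) :
    ∃ s : V → Dir d → Dir d, (∀ v, Function.Injective (s v)) ∧
      (∀ v δ, s v (ng δ) = ng (s v δ)) ∧ (∀ g v, s (a g v) = s v) ∧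
      (∀ v δ δ', (f (a (u δ') v)).1 = (f v).2.1 δ ↔ δ' = s v δ) ∧
      ∀ v, R (fun g => (f (a (Lin (s v) g) v)).2.2) := by
  classical
  have hmem : ∀ v : V, ∀ g : GD d, nm g ≤ r → G.edist v (a g v) ≤ r := fun v g hg =>
    (hA.edist_le v (nm g) g rfl).trans (by exact_mod_cast hg)
  choose φ hφ using fun v => (hf v).2.2
  -- the chart, with values in `V`
  let ψ : V → GD d → V := fun v g => (φ v g).1
  have ψ0 : ∀ v, ψ v 0 = v := by
    intro v
    change (φ v 0).1 = v
    rw [(hφ v).root]
    rfl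
  have ψadj : ∀ v g δ, nm g < r → G.Adj (ψ v g) (ψ v (g + u δ)) := fun v g δ hg =>
    (hφ v).adj g δ hg
  have ψcol : ∀ v g δ, nm g < r → (f (ψ v (g + u δ))).1 = (f (ψ v g)).2.1 δ := fun v g δ hg =>
    (hφ v).col g δ hg
  have ψinj : ∀ v, Function.Injective (f v).2.1 := fun v => (hφ v).inj
  have h0 : nm (0 : GD d) < r := by rw [nm_zero]; omega
  have hex : ∀ v δ, ∃ δ', ψ v (u δ) = a (u δ') v := by
    intro v δ
    have := ψadj v 0 δ h0
    rw [ψ0, zero_add] at this
    exact (hA.adj _ _).1 this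
  choose s hs using hex
  have hcol : ∀ v δ, (f (a (u (s v δ)) v)).1 = (f v).2.1 δ := by
    intro v δ
    have := ψcol v 0 δ h0
    rwa [ψ0, zero_add, hs] at this
  have hsurj : ∀ v, Function.Surjective (s v) := by
    intro v δ'
    have h1 : G.Adj v (a (u δ') v) := (hA.adj _ _).2 ⟨δ', rfl⟩
    obtain ⟨δ, hδ⟩ := (hφ v).all ⟨a (u δ') v, hmem v _ (by rw [nm_u]; omega)⟩ h1
    refine ⟨δ, ?_⟩
    have h2 : a (u δ') v = ψ v (u δ) := congrArg Subtype.val hδ
    rw [hs] at h2
    exact (u_injective (hA.inj h2)).symm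
  have hinj : ∀ v, Function.Injective (s v) := fun v =>
    Finite.injective_iff_surjective.2 (hsurj v)
  have hiff : ∀ v δ δ', (f (a (u δ') v)).1 = (f v).2.1 δ ↔ δ' = s v δ := by
    intro v δ δ'
    constructor
    · intro h
      obtain ⟨ε, rfl⟩ := hsurj v δ'
      rw [hcol] at h
      rw [ψinj v h]
    · rintro rfl
      exact hcol v δ
  have hstep : ∀ v g δ, nm g < r → ψ v (g + u δ) = a (u (s (ψ v g) δ)) (ψ v g) := by
    intro v g δ hg
    obtain ⟨δ', hδ'⟩ := (hA.adj _ _).1 (ψadj v g δ hg)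
    have h1 := ψcol v g δ hg
    rw [hδ', hiff] at h1
    rw [hδ', h1]
  have h1r : ∀ δ : Dir d, nm (u δ) < r := fun δ => by rw [nm_u]; omega
  have hcomm : ∀ v δ δ', u (s (a (u (s v δ)) v) δ') + u (s v δ) =
      u (s (a (u (s v δ')) v) δ) + u (s v δ') := by
    intro v δ δ'
    have e1 := hstep v (u δ) δ' (h1r δ)
    have e2 := hstep v (u δ') δ (h1r δ')
    rw [add_comm (u δ'), e1, hs, hs, ← hA.add, ← hA.add] at e2
    exact hA.inj e2
  have hopp : ∀ v δ, s (a (u (s v δ)) v) (ng δ) = ng (s v δ) := by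
    intro v δ
    have e1 := hstep v (u δ) (ng δ) (h1r δ)
    rw [u_ng, add_neg_cancel, ψ0, hs, ← hA.add] at e1
    have h1 := hA.free _ _ e1.symm
    apply u_injective
    rw [u_ng]
    exact eq_neg_of_add_eq_zero_left h1
  have hagree : ∀ v δ δ', δ' ≠ δ → δ' ≠ ng δ → s (a (u (s v δ)) v) δ' = s v δ' := by
    intro v δ δ' h1 h2
    rcases sum_eq (hcomm v δ δ') (fun h => h1 (hinj v h).symm) with ⟨h3, _⟩ | ⟨h3, _⟩
    · exact h3
    · exfalso
      rw [← hopp v δ] at h3
      exact h2 (hinj _ h3)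
  have hodd : ∀ v δ, s v (ng δ) = ng (s v δ) := by
    intro v δ
    obtain ⟨ε, hε⟩ := hsurj v (ng (s v δ))
    by_cases h1 : ε = δ
    · rw [h1] at hε
      exact absurd hε.symm (ng_ne _)
    · by_cases h2 : ε = ng δ
      · rw [← h2, hε]
      · exfalso
        have h3 := hagree v δ ε h1 h2
        rw [hε, ← hopp v δ] at h3
        exact h2 (hinj _ h3)
  have hstepinv : ∀ v δ, s (a (u (s v δ)) v) = s v := by
    intro v δ
    have key : ∀ δ', δ' ≠ δ → s (a (u (s v δ)) v) δ' = s v δ' := by
      intro δ' h1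
      by_cases h2 : δ' = ng δ
      · rw [h2, hopp, hodd]
      · exact hagree v δ δ' h1 h2
    funext δ'
    by_cases h1 : δ' = δ
    · subst h1
      obtain ⟨ε, hε⟩ := hsurj (a (u (s v δ')) v) (s v δ')
      by_cases h2 : ε = δ'
      · rw [h2] at hε
        exact hε
      · rw [key ε h2] at hε
        exact absurd (hinj v hε) h2
    · exact key δ' h1
  have hinv1 : ∀ v δ, s (a (u δ) v) = s v := by
    intro v δ
    obtain ⟨ε, rfl⟩ := hsurj v δ
    exact hstepinv v ε
  have hinv : ∀ (n : ℕ) (g : GD d), nm g = n → ∀ v, s (a g v) = s v := by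
    intro n
    induction n with
    | zero =>
      intro g hg v
      by_cases h : g = 0
      · rw [h, hA.zero]
      · obtain ⟨g', δ, _, h2⟩ := nm_exists h
        omega
    | succ n ih =>
      intro g hg v
      have hg0 : g ≠ 0 := by
        rintro rfl
        rw [nm_zero] at hg
        omega
      obtain ⟨g', δ, h1, h2⟩ := nm_exists hg0
      rw [h1, hA.add, ih g' (by omega), hinv1]
  refine ⟨s, hinj, hodd, fun g v => hinv _ g rfl v, hiff, fun v => ?_⟩
  have hψ : ∀ (n : ℕ) (g : GD d), nm g = n → n ≤ r → ψ v g = a (Lin (s v) g) v := by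
    intro n
    induction n with
    | zero =>
      intro g hg _
      by_cases h : g = 0
      · rw [h, Lin_zero, hA.zero, ψ0]
      · obtain ⟨g', δ, _, h2⟩ := nm_exists h
        omega
    | succ n ih =>
      intro g hg hn
      have hg0 : g ≠ 0 := by
        rintro rfl
        rw [nm_zero] at hg
        omega
      obtain ⟨g', δ, h1, h2⟩ := nm_exists hg0
      rw [h1, hstep v g' δ (by omega), ih g' (by omega) (by omega), hinv _ _ rfl, Lin_add,
        Lin_u _ (hodd v), add_comm (Lin (s v) g'), hA.add]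
  refine hloc _ _ ?_ (hφ v).rule
  intro g hg
  change (f (ψ v g)).2.2 = _
  rw [hψ _ g rfl hg]

end

end Pool.Agent.T2h67.SG
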