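import Pool.Agent.T2h67.SG.Enc
import Pool.Agent.Y182.AM.Col
import Pool.Agent.H110K2.P_polish_of_Gdelta

set_option autoImplicit false

/-!
# The shift graph: topology and colourings
-/

namespace Pool.Agent.T2h67.SG

open MeasureTheory

variable {d : ℕ}

theorem continuous_shift (g : GD d) : Continuous (shift g) :=
  continuous_pi fun h => continuous_apply (h + g)

theorem shift_mem {g : GD d} {x : GD d → Bool} (hx : x ∈ freePart d) : shift g x ∈ freePart d := by
  intro k hk h
  refine hx k hk ?_
  have h1 : shift (-g) (shift k (shift g x)) = x := by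
    rw [h, ← shift_add, neg_add_cancel, shift_zero]
  rwa [← shift_add, ← shift_add, show -g + k + g = k by abel] at h1

/-- the action on the free part -/
def act (g : GD d) (x : freePart d) : freePart d := ⟨shift g x.1, shift_mem x.2⟩

theorem act_zero (x : freePart d) : act 0 x = x := Subtype.ext (shift_zero _)

theorem act_add (g h : GD d) (x : freePart d) : act (g + h) x = act g (act h x) :=
  Subtype.ext (shift_add _ _ _)

theorem act_free {g : GD d} {x : freePart d} (h : act g x = x) : g = 0 := by
  by_contra hg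
  exact x.2 g hg (congrArg Subtype.val h)

theorem act_adj (x y : freePart d) :
    (shiftGraph d).Adj x y ↔ ∃ δ : Dir d, y = act (u δ) x := by
  constructor
  · rintro ⟨i, h | h⟩
    · exact ⟨(i, true), Subtype.ext h⟩
    · refine ⟨(i, false), Subtype.ext ?_⟩
      rw [h]
      change _ = shift (Pi.single i (-1)) x.1
      rw [Pi.single_neg]
  · rintro ⟨⟨i, b⟩, rfl⟩
    cases b
    · refine ⟨i, Or.inr ?_⟩
      change shift (Pi.single i (-1)) x.1 = _
      rw [Pi.single_neg]
    · exact ⟨i, Or.inl rfl⟩

theorem act_Act : Act (shiftGraph d) act where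
  zero := act_zero
  add := act_add
  free _ _ := act_free
  adj := act_adj

/-- the action on an invariant set -/
def actY {Y : Set (freePart d)} (hY : Invariant Y) (g : GD d) (y : Y) : Y :=
  ⟨act g y.1, hY g y.1 (act g y.1) rfl y.2⟩

theorem actY_Act {Y : Set (freePart d)} (hY : Invariant Y) :
    Act ((shiftGraph d).induce Y) (actY hY) where
  zero _ := Subtype.ext (act_zero _)
  add _ _ _ := Subtype.ext (act_add _ _ _)
  free _ _ h := act_free (congrArg Subtype.val h)
  adj v w := by
    have h1 : ((shiftGraph d).induce Y).Adj v w ↔ (shiftGraph d).Adj v.1 w.1 := Iff.rfl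
    rw [h1, act_adj]
    constructor
    · rintro ⟨δ, h⟩
      exact ⟨δ, Subtype.ext h⟩
    · rintro ⟨δ, h⟩
      exact ⟨δ, congrArg Subtype.val h⟩

theorem isGδ_freePart : IsGδ (freePart d) := by
  have h : freePart d = ⋂ g : {g : GD d // g ≠ 0}, {x | shift g.1 x ≠ x} := by
    ext x
    simp only [freePart, Set.mem_iInter, Set.mem_ofPred_eq, Subtype.forall]
  rw [h]
  exact IsGδ.iInter_of_isOpen fun g =>
    (isClosed_eq (continuous_shift g.1) continuous_id).isOpen_compl

instance : PolishSpace (GD d → Bool) where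

instance : PolishSpace (freePart d) := Pool.H110K2.polish_of_Gdelta isGδ_freePart

theorem continuous_act (g : GD d) : Continuous (act g) :=
  ((continuous_shift g).comp continuous_subtype_val).subtype_mk _

theorem measurable_act (g : GD d) : Measurable (act g) := (continuous_act g).measurable

/-- the action as homeomorphisms -/
def actHomeo (g : GD d) : freePart d ≃ₜ freePart d where
  toFun := act g
  invFun := act (-g)
  left_inv x := by rw [← act_add, neg_add_cancel, act_zero]
  right_inv x := by rw [← act_add, add_neg_cancel, act_zero]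
  continuous_toFun := continuous_act g
  continuous_invFun := continuous_act (-g)

theorem residual_preimage (g : GD d) {Y : Set (freePart d)} (hY : Y ∈ residual (freePart d)) :
    act g ⁻¹' Y ∈ residual (freePart d) :=
  tendsto_residual_of_isOpenMap (continuous_act g) (actHomeo g).isOpenMap hY

/-- Every comeagre Borel set includes an invariant comeagre Borel set. -/
theorem exists_invariant {G₀ : Set (freePart d)} (hm : MeasurableSet G₀)
    (hr : G₀ ∈ residual (freePart d)) :
    ∃ Y ⊆ G₀, MeasurableSet Y ∧ Invariant Y ∧ Y ∈ residual (freePart d) := by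
  refine ⟨⋂ g : GD d, act g ⁻¹' G₀, ?_, ?_, ?_, ?_⟩
  · intro x hx
    have := Set.mem_iInter.1 hx 0
    rwa [Set.mem_preimage, act_zero] at this
  · exact MeasurableSet.iInter fun g => measurable_act g hm
  · intro g x y hxy hx
    have hy : y = act g x := Subtype.ext hxy
    rw [Set.mem_iInter] at hx ⊢
    intro k
    rw [Set.mem_preimage, hy, ← act_add]
    exact hx (k + g)
  · exact countable_iInter_mem.2 fun g => residual_preimage g hr

theorem exists_coloring (d : ℕ) : ∃ (M : ℕ) (κ : freePart d → Fin M), Measurable κ ∧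
    ∀ x (δ δ' : Dir d), κ (act (u δ) x) = κ (act (u δ') x) → δ = δ' := by
  classical
  have hA : Pool.Agent.Y451.AM.Act (Multiplicative (GD d)) (freePart d)
      (fun g x => act g.toAdd x) := by
    refine ⟨?_, ?_, ?_, ?_⟩
    · intro x
      exact act_zero x
    · intro g h x
      exact act_add _ _ x
    · intro g
      exact measurable_act _
    · intro g x h
      exact act_free h
  haveI : Countable (Multiplicative (GD d)) := inferInstanceAs (Countable (GD d))
  obtain ⟨M, κ, hκ, h⟩ := Pool.Agent.Y182.AM.Col.col (Multiplicative (GD d)) (freePart d) _ hA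
    ((Finset.univ : Finset (Dir d)).image fun δ => Multiplicative.ofAdd (u δ))
  refine ⟨M, κ, hκ, fun x δ δ' e => ?_⟩
  have h1 := h x (Multiplicative.ofAdd (u δ)) (Finset.mem_image.2 ⟨δ, Finset.mem_univ _, rfl⟩)
    (Multiplicative.ofAdd (u δ')) (Finset.mem_image.2 ⟨δ', Finset.mem_univ _, rfl⟩) e
  exact u_injective (Multiplicative.ofAdd.injective h1)

/-- The encoded problem has a Baire measurable solution if the rule has one. -/
theorem baire_of_rule {L : Type} [Finite L] {r : ℕ} {R : (GD d → L) → Prop}
    (hloc : ∀ w w' : GD d → L, (∀ g, nm g ≤ r → w g = w' g) → R w → R w') (hr : 1 ≤ r)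
    {M : ℕ} {κ : freePart d → Fin M} (hκ : Measurable κ)
    (hκ' : ∀ x (δ δ' : Dir d), κ (act (u δ) x) = κ (act (u δ') x) → δ = δ')
    {Y : Set (freePart d)} (hYm : MeasurableSet Y) (hYi : Invariant Y)
    {l : freePart d → L} (hl : ∀ b, MeasurableSet (l ⁻¹' {b}))
    (hR : ∀ x ∈ Y, R (fun g => l (act g x))) :
    ∃ f : Y → (enc d M L r R).Λ, BorelMap f ∧
      (enc d M L r R).IsSolution ((shiftGraph d).induce Y) f := by
  have h := enc_pos (K := M) (V := Y) (L := L) (r := r) (R := R) (actY_Act hYi) hloc hr
    (fun y => κ y.1)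
    (fun v δ δ' e => hκ' v.1 δ δ' e) (fun y => l y.1) (fun v => hR v.1 v.2)
  refine ⟨_, ?_, h⟩
  rintro ⟨b1, b2, b3⟩
  have h1 : ((fun v : Y => ((κ v.1, fun δ => κ (actY hYi (u δ) v).1, l v.1) :
      (enc d M L r R).Λ)) ⁻¹' {(b1, b2, b3)}) =
      (fun v : Y => κ v.1) ⁻¹' {b1} ∩ (⋂ δ : Dir d, (fun v : Y => κ (act (u δ) v.1)) ⁻¹' {b2 δ}) ∩
        (fun v : Y => l v.1) ⁻¹' {b3} := by
    ext v
    constructor
    · intro hv
      have hv' : ((κ v.1, fun δ => κ (actY hYi (u δ) v).1, l v.1) : ELab d M L) = (b1, b2, b3) := hv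
      rw [Prod.mk.injEq, Prod.mk.injEq] at hv'
      refine ⟨⟨hv'.1, Set.mem_iInter.2 fun δ => ?_⟩, hv'.2.2⟩
      exact congrFun hv'.2.1 δ
    · rintro ⟨⟨h1, h2⟩, h3⟩
      rw [Set.mem_iInter] at h2
      change ((κ v.1, fun δ => κ (actY hYi (u δ) v).1, l v.1) : ELab d M L) = (b1, b2, b3)
      rw [Prod.mk.injEq, Prod.mk.injEq]
      exact ⟨h1, funext fun δ => h2 δ, h3⟩
  refine (congrArg MeasurableSet h1).mpr ?_
  refine ((?_ : MeasurableSet _).inter (MeasurableSet.iInter fun δ => ?_)).inter ?_
  · exact (hκ.comp measurable_subtype_coe) (measurableSet_singleton b1)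
  · exact ((hκ.comp (measurable_act _)).comp measurable_subtype_coe) (measurableSet_singleton _)
  · exact measurable_subtype_coe (hl b3)

end Pool.Agent.T2h67.SG
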